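import Pool.Agent.Helper888_Pseudo.Final

/-!
# The maximum number of hexagons

The maximum number of six-sided cells of an arrangement of `n` pseudolines in the projective
plane, simple or not, is `n ^ 2 / 6 + O(n)`.
-/

namespace Pool.Agent.Results.MP_91c05b_co.Hexagons

open Pool.Agent.Helper888

/-- For every `n ≥ 3` the maximum number `x` of six-sided cells of an arrangement of `n`
pseudolines satisfies `n ^ 2 / 6 - 3 * n ≤ x ≤ (n ^ 2 - n - 6) / 6`. -/
theorem result : ∀ n ≥ 3, ∃ x : ℕ, IsGreatest {y | ∃ A : Arrangement n, A.numCells 6 = y} x ∧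
    n ^ 2 ≤ 6 * x + 18 * n ∧ 6 * x + n + 6 ≤ n ^ 2 := by
  intro n hn
  obtain ⟨x, hx, h1, h2⟩ := exists_max n 6 6 18 hn (by norm_num) (exists_word_six n)
  exact ⟨x, hx, h1, by omega⟩

end Pool.Agent.Results.MP_91c05b_co.Hexagons
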